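import Pool.Agent.H73.GWT.Stmts

set_option autoImplicit false

open Classical

namespace GWT

variable {ι G V : Type*} [Fintype ι] [Group G] [MulAction G V] (C : Code ι G V)

theorem HTDAux_ok (w : ℕ → G) (z : V) : ∀ (F : List (ι × List ι)) (b : List ι) (R : ℕ),
    Ok C w z F b R → F.length * C.Λ ≤ R
  | [], _, _, _ => by simp
  | f :: F, b, R, h => by
    obtain ⟨h1, -, -, -, h5⟩ := h
    have h2 := HTDAux_ok w z F b _ h5
    rw [List.length_cons, add_mul, one_mul]
    omega

theorem HTD (h1 : INVStmt C) : HTDStmt C := by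
  refine ⟨HTDAux_ok C, fun w l => ?_⟩
  have h2 := HTDAux_ok C w _ _ _ _ (h1 w l).2
  have h3 : (St C w l).1.length ≤ (St C w l).1.length * C.Λ := Nat.le_mul_of_pos_right _ C.Λ_pos
  exact h3.trans (h2.trans (Nat.sub_le _ _))

end GWT
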